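import Pool.Agent.K.MP_63735c_ag.C357
import Pool.Agent.K.MP_63735c_ag.C288
import Pool.Agent.K.MP_63735c_ag.C289
import Pool.Agent.P.MP_63735c_ag.Kum.Top2
import Pool.Agent.P.MP_63735c_ag.Kum.Ctl
import Pool.Agent.P.MP_63735c_ag.Kum.Mp

open Pool.Agent.SPF Pool.Agent.CK Pool.Agent.SE Pool.Agent.ZB

namespace Pool.Agent.Results.MP_63735c_ag.FibrationSing

theorem result (n : ℕ) (hn : 1 ≤ n) (X : Type) [TopologicalSpace X] [T2Space X] [CompactSpace X]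
    (R : Set X) (hR : IsOpen R) (hd : Dense R) [PreconnectedSpace R] (A : Atlas R (2 * n))
    (B : Amb R A) (hN : Normal B) (hO : NoOdd A) (h20 : Pool.Agent.BP.H20 A) (K : Form11 A)
    (hK : KahS B K) (L : Line A) (hC : Cartier L)
    (h0 : ∀ i, ∀ z ∈ (A.C i).W, ((A.C i).η z).det = 0)
    (hη : ∃ i, ∃ z ∈ (A.C i).W, (A.C i).η z ≠ 0) (Y : Type) [TopologicalSpace Y] [T2Space Y]
    [CompactSpace Y] (Z : Res L Y) (P : Over B Z) :
    ∃ k : ℕ, 1 ≤ k ∧ (∀ x : X, ∃ s, L.IsSection k s ∧ ¬ VanS L k s x) ∧ IsSteinS L k ∧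
      ∀ x, IsConnected (FibreS L k x) ∧ IsLagS P n (FibreS L k x) := by
  borelize ↥R
  have hinj := Pool.Agent.BF.res_inj Z
  obtain ⟨μ, _, hμ⟩ := Pool.Agent.BF.exists_vol P.toFull
  have hI := Pool.Agent.BF.iso_of_det hn hK h20 P h0
  obtain ⟨S⟩ := Pool.Agent.BF.exists_sec hn hR hd hinj hO h20 hμ hK hI hη P
  obtain ⟨S', hb⟩ := exists_sys rfl hn hinj hμ hK hN hC hI S
  obtain ⟨Γ, F', h', c', e1, e2, hT⟩ :=
    S'.exists_ctxS hμ ⟨hK, hN, hC, hd⟩ P (P.toFull.h1 hO) (P.toFull.h02 h20) hη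
  exact Γ.full P e1 e2 hT

/-- All hypotheses of `result` can hold with `R = X`; witness: a Kummer K3 surface, `n = 1`. -/
theorem smooth_example : ∃ (n : ℕ) (_ : 1 ≤ n) (X : Type) (_ : TopologicalSpace X) (_ : T2Space X)
    (_ : CompactSpace X) (R : Set X) (_ : IsOpen R) (_ : Dense R) (_ : PreconnectedSpace R)
    (A : Atlas R (2 * n)) (B : Amb R A) (K : Form11 A) (L : Line A) (Y : Type)
    (_ : TopologicalSpace Y) (_ : T2Space Y) (_ : CompactSpace Y) (Z : Res L Y) (_ : Over B Z),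
    (∀ x, x ∈ R) ∧ Normal B ∧ NoOdd A ∧ Pool.Agent.BP.H20 A ∧ KahS B K ∧ Cartier L ∧
      (∀ i, ∀ z ∈ (A.C i).W, ((A.C i).η z).det = 0) ∧ ∃ i, ∃ z ∈ (A.C i).W, (A.C i).η z ≠ 0 := by
  obtain ⟨X, _, _, _, ⟨G⟩⟩ := Pool.Agent.Kum.exists_glue
  have := G.conn
  exact ⟨1, le_rfl, X, _, ‹_›, ‹_›, Set.univ, isOpen_univ, dense_univ,
    Subtype.preconnectedSpace isPreconnected_univ, G.atlas, G.amb, G.form, G.line, X, _, ‹_›, ‹_›,
    G.res, G.over, Set.mem_univ, G.normal, G.noOdd, G.h20, G.kah, G.cartier,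
    fun i z _ => G.ψ_det i z, G.ψ_ne⟩

/-- All hypotheses of `result` can hold with `R ≠ X`; witness: a 16-nodal Kummer surface, `n = 1`. -/
theorem singular_example : ∃ (n : ℕ) (_ : 1 ≤ n) (X : Type) (_ : TopologicalSpace X)
    (_ : T2Space X) (_ : CompactSpace X) (R : Set X) (_ : IsOpen R) (_ : Dense R)
    (_ : PreconnectedSpace R) (A : Atlas R (2 * n)) (B : Amb R A) (K : Form11 A) (L : Line A)
    (Y : Type) (_ : TopologicalSpace Y) (_ : T2Space Y) (_ : CompactSpace Y) (Z : Res L Y)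
    (_ : Over B Z),
    (∃ x, x ∉ R) ∧ Normal B ∧ NoOdd A ∧ Pool.Agent.BP.H20 A ∧ KahS B K ∧ Cartier L ∧
      (∀ i, ∀ z ∈ (A.C i).W, ((A.C i).η z).det = 0) ∧ ∃ i, ∃ z ∈ (A.C i).W, (A.C i).η z ≠ 0 := by
  obtain ⟨X, Y, _, _, _, _, _, _, R, G, h1, h2, h3, ⟨S⟩⟩ := Pool.Agent.Kum.exists_sing
  obtain ⟨h4, A, B, K, L, Z, P, h⟩ := S.assemble
  exact ⟨1, le_rfl, X, _, ‹_›, ‹_›, R, h1, h2, h4, A, B, K, L, Y, _, ‹_›, ‹_›, Z, P,
    (Set.ne_univ_iff_exists_notMem R).1 h3, h⟩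

/-- A set with `IsLagS` contains no non-empty open set: the fibres in `result` have empty interior. -/
theorem lagrangian_thin (n : ℕ) (hn : 1 ≤ n) (X : Type) [TopologicalSpace X] (R : Set X)
    (hR : IsOpen R) (hd : Dense R) (A : Atlas R (2 * n)) (B : Amb R A) (L : Line A) (Y : Type)
    [TopologicalSpace Y] (Z : Res L Y) (P : Over B Z) (S U : Set X) (h : IsLagS P n S)
    (hU : IsOpen U) (hs : U ⊆ S) (x : X) : x ∉ U := fun hx =>
  Pool.Agent.Kum.ctl_thin (by omega) hR hd P h hU hs ⟨x, hx⟩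

/-- On `R`, `VanS` is the vanishing of the section. -/
theorem vanishing_on_smooth_part (N : ℕ) (X : Type) [TopologicalSpace X] (R : Set X)
    (hR : IsOpen R) (A : Atlas R N) (L : Line A) (k : ℕ) (s) (hs : L.IsSection k s) (i : A.ι) :
    ∀ z ∈ (A.C i).W, VanS L k s (A.p i z) ↔ s i z = 0 := fun _ hz =>
  Pool.Agent.Kum.ctl_van hR L k hs i hz

/-- A set with `IsLagS` has no isolated point. -/
theorem lagrangian_perfect (n : ℕ) (hn : 1 ≤ n) (X : Type) [TopologicalSpace X] (R : Set X)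
    (A : Atlas R (2 * n)) (B : Amb R A) (L : Line A) (Y : Type) [TopologicalSpace Y]
    (Z : Res L Y) (P : Over B Z) (S : Set X) (h : IsLagS P n S) (x : X) (hx : x ∈ S) :
    ∃ᶠ y in nhdsWithin x {x}ᶜ, y ∈ S :=
  Pool.Agent.Kum.ctl_iso (by omega) P h hx

/-- The premise of `IsLagS` holds at points of a fibre close to each of its points in `R` that is
not a base point. -/
theorem fibre_manifold_points (N : ℕ) (X : Type) [TopologicalSpace X] (R : Set X) (hR : IsOpen R)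
    (A : Atlas R N) (B : Amb R A) (L : Line A) (k : ℕ) (x y : X) (hy : y ∈ FibreS L k x ∩ R)
    (hb : ∃ s, L.IsSection k s ∧ ¬ VanS L k s y) (U : Set X) (hU : IsOpen U) (yU : y ∈ U) :
    ∃ (α : B.κ) (d : ℕ) (γ : E d → E (B.M α)) (t : E d), ∃ x' ∈ FibreS L k x ∩ B.V α, x' ∈ U ∧
      (∀ᶠ u in nhds t, DifferentiableAt ℂ γ u) ∧ Function.Injective (fderiv ℂ γ t) ∧
      Filter.map γ (nhds t) = Filter.map (B.z α) (nhdsWithin x' (FibreS L k x)) :=
  Pool.Agent.Kum.ctl_mpt hR B L k hy.1 hy.2 hb hU yU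

end Pool.Agent.Results.MP_63735c_ag.FibrationSing
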