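import Pool.Agent.K.MP_63735c_ag.C191
import Pool.Agent.K.MP_63735c_ag.C189
import Pool.Agent.K.MP_63735c_ag.C159
import Pool.Agent.K.MP_63735c_ag.C188
import Pool.Agent.K.MP_63735c_ag.C168

open MeasureTheory Pool.Agent.SPF Pool.Agent.NL Pool.Agent.CK Pool.Agent.CS Pool.Agent.HS
  Pool.Agent.SE

namespace Pool.Agent.Results.MP_63735c_ag.Sections

theorem result (n : ℕ) (hn : 1 ≤ n) (X : Type) [TopologicalSpace X] [T2Space X] [CompactSpace X]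
    (R : Set X) (hR : IsOpen R) (hd : Dense R) [PreconnectedSpace R] (A : Atlas R (2 * n))
    (B : Amb R A) (hinj : ∀ i, Set.InjOn (A.p i) (A.C i).W) (hO : NoOdd A) [MeasurableSpace R]
    [BorelSpace R] (μ : Measure R) [IsFiniteMeasure μ] (hμ : IsVolume A μ) (K : Form11 A)
    (hK : IsKahler B K) (H : BBF n A μ K) (hL : H.Isotropic) (L : Line A)
    (hη : ∃ i, ∃ z ∈ (A.C i).W, (A.C i).η z ≠ 0) (Y : Type) [TopologicalSpace Y] [T2Space Y]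
    [CompactSpace Y] (Z : Res L Y) :
    ∃ (T : Set (E n)) (Ψ : E n × E n → R) (m : ℕ) (s : Fin (n + 1) → A.ι → E (2 * n) → ℂ),
      IsOpen T ∧ T.Nonempty ∧ A.IsUnif T Ψ ∧ IsFibred Ψ T ∧ 1 ≤ m ∧ (∀ l, L.IsSection m (s l)) ∧
        ∀ b ∈ T, ∀ τ j, ∀ y ∈ (A.C j).W, A.p j y = Ψ (b, τ) → s 0 j y ≠ 0 ∧
          ∀ b' ∈ T, ∀ τ' j', ∀ y' ∈ (A.C j').W, A.p j' y' = Ψ (b', τ') →
            ((∀ l, s l j y / s 0 j y = s l j' y' / s 0 j' y') ↔ b = b') := by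
  have := vol_pos hμ
  obtain ⟨j, y, hy, hη⟩ := hη
  have : Nonempty R := ⟨A.p j y⟩
  obtain ⟨i, z, hz, hr⟩ := BBF.rank hn rfl hK.posDef hL hy hη
  obtain ⟨F, hF, hi, h0⟩ := BBF.exists_F hn rfl measureReal_univ_ne_zero hL
  have hI := A.iso_of_integrable rfl hn μ F hF hi h0
  have hH : ∀ i, (A.C i).Hol n := fun i =>
    Chart.hol_of_S rfl (hI i) (B.S_eq_zero rfl hR hd hI i)
  obtain ⟨T, Ψ, h1, h2, -, h4⟩ :=
    A.exists_unif rfl hI hH (A.complete_of_proper rfl hI hH (B.proper rfl hR hd hI)) i hz hr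
  obtain ⟨T₁, a1, a2, a3, a4⟩ := BBF.leaves hn rfl hinj hμ hK.posDef hK.bd20 hK.bd11
    (HX.exists_Lam hinj hK) hL h4 h1 ⟨0, h2⟩
  obtain ⟨k, p, α, b1, b2, b3⟩ := Z.ten rfl hO
  obtain ⟨m, s, c1, c2, T', c3, c4, c5, c6⟩ :=
    sections hinj L (Z.hl2 rfl) b1 b2 b3 a2 a3 (unif_mono h4 a1) a4
  exact ⟨T', Ψ, m, s, c4, c5, unif_mono h4 (c3.trans a1), AB.fib_mono a4 c3, c1, c2, c6⟩

end Pool.Agent.Results.MP_63735c_ag.Sections
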