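import Pool.Agent.P.MP_63735c_ag.TaMain
import Pool.Agent.P.MP_63735c_ag.TaCc
import Pool.Agent.P.MP_63735c_ag.TaCd

open AlgebraicGeometry Pool.Agent.P.MP_63735c_ag.Ta

namespace Pool.Agent.Results.MP_63735c_ag.TorsionAlg

/-- A projective primitive symplectic variety with a nontrivial nef line bundle of volume zero
(it is 2-torsion) that induces no fibration. -/
theorem result : ∃ (X : Scheme.{0}) (π : X ⟶ Spec (CommRingCat.of ℂ)) (_ : IsIntegral X)
    (_ : LocallyOfFinitePresentation π), PrimitiveSymplectic π ∧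
    ∃ L : LB X, L.IsLB ∧ ¬ L.Iso (triv X) ∧ (L.pow 2).Iso (triv X) ∧ L.Nef ∧ VolZero π L ∧
      ¬ L.Induces :=
  main

/-- `Iso` is reflexive on line bundles. -/
theorem iso_refl (X : Scheme.{0}) (L : LB X) (h : L.IsLB) : L.Iso L := ca_refl h

/-- `Iso` is symmetric. -/
theorem iso_symm (X : Scheme.{0}) (L M : LB X) (h : L.Iso M) : M.Iso L := ca_symm h

/-- `Iso` is transitive on line bundles. -/
theorem iso_trans (X : Scheme.{0}) (L M N : LB X) (hL : L.IsLB) (hM : M.IsLB) (hN : N.IsLB)
    (h : L.Iso M) (h' : M.Iso N) : L.Iso N := ca_trans hL hM hN h h'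

/-- `L` is trivial if and only if it has a nowhere vanishing section. -/
theorem trivial_iff_unit_section (X : Scheme.{0}) (L : LB X) :
    L.Iso (triv X) ↔ ∃ s, L.IsSection s ∧ ∀ i, IsUnit (s i) := ca_triv

/-- The pull-back of an ample bundle by a surjective morphism satisfies `Induces`. -/
theorem pull_of_ample_induces (X B : Scheme.{0}) (f : X ⟶ B) (A : LB B) (hf : Surjective f)
    (hB : Nontrivial B) (h : A.IsLB) (h' : A.Ample) : (A.pull f).IsLB ∧ (A.pull f).Induces :=
  ⟨ca_pull h f, ca_induces h h' f hf hB⟩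

/-- On every primitive symplectic variety some line bundle satisfies `Induces`. -/
theorem some_bundle_induces (X : Scheme.{0}) (π : X ⟶ Spec (CommRingCat.of ℂ)) [IsIntegral X]
    [LocallyOfFinitePresentation π] (h : PrimitiveSymplectic π) :
    ∃ A : LB X, A.IsLB ∧ A.Induces := cb_some h

/-- The trivial bundle on a proper variety with more than one point is not ample. -/
theorem trivial_not_ample (X : Scheme.{0}) (π : X ⟶ Spec (CommRingCat.of ℂ)) [IsIntegral X]
    [IsProper π] (hX : Nontrivial X) : ¬ (triv X).Ample := cb_triv π hX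

/-- An ample bundle does not have volume zero. -/
theorem ample_not_volZero (X : Scheme.{0}) (π : X ⟶ Spec (CommRingCat.of ℂ)) [IsIntegral X]
    (A : LB X) (h : A.IsLB) (h' : A.Ample) : ¬ VolZero π A := cb_not_volZero π h h'

/-- The inverse of an ample bundle on a proper variety with more than one point is not nef. -/
theorem inverse_of_ample_not_nef (X : Scheme.{0}) (π : X ⟶ Spec (CommRingCat.of ℂ))
    [IsIntegral X] [IsProper π] (hX : Nontrivial X) (L A : LB X) (hL : L.IsLB) (h : A.IsLB)
    (h' : A.Ample) (hi : (L.mul A).Iso (triv X)) : ¬ L.Nef := cb_not_nef π hX hL h h' hi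

/-- The Cech differential has square zero. -/
theorem cech_complex (Y : Scheme.{0}) (ι : Type) (U : ι → Y.Opens) (n : ℕ) (c) :
    cechD U (n + 1) (cechD U n c) = 0 := ca_dd U n c

/-- `CechZero` fails for some cover by two affine open sets (witness: the punctured plane). -/
theorem cech_can_fail : ∃ (Y : Scheme.{0}) (U : Fin 2 → Y.Opens), (∀ i, IsAffineOpen (U i)) ∧
    ⨆ i, U i = ⊤ ∧ ¬ CechZero U 0 := cc_plane

/-- A primitive symplectic variety has dimension `2 n` with `n ≥ 1`. -/
theorem dimension_even (X : Scheme.{0}) (π : X ⟶ Spec (CommRingCat.of ℂ)) [IsIntegral X]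
    [LocallyOfFinitePresentation π] (h : PrimitiveSymplectic π) (d : ℕ)
    (hd : letI := fieldAlg π; Algebra.trdeg ℂ X.functionField = d) : ∃ n, 1 ≤ n ∧ d = 2 * n :=
  cd_dim h hd

/-- Under `UniqueSymplectic S` a function that lies in all rings of `S` is constant. -/
theorem regular_functions_constant (K : Type) [Field K] [Algebra ℂ K] (S : Set (Subring K))
    (h : UniqueSymplectic S) (f : K) (hf : ∀ O ∈ S, f ∈ O) : ∃ c : ℂ, f = algebraMap ℂ K c :=
  cd_const h hf

end Pool.Agent.Results.MP_63735c_ag.TorsionAlg
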